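import Pool.Agent.Q172.Diff.E7

/-!
# Montgomery's function and blocks of consecutive zeros

Let `γ_1 ≤ γ_2 ≤ …` be the positive ordinates of the nontrivial zeros of `ζ`.  Take a block of `L`
consecutive zeros at random among those up to height `T` and look at `∑ T ^ (iαγ)` over the block.  We
show, without any hypothesis, that its mean square is given by the average of Montgomery's function
`F(·, T)` near `α` against the Fejér kernel of scale `1/L`: the two root mean squares differ by
`O(1 + log L)` only, uniformly for all real `α`.  (For windows of fixed length in `t`, rather than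
with a fixed number of zeros, this would be a computation; passing from one to the other we lose
`O(1 + log L)`, for arbitrary bounded weights in place of `T ^ (iαγ)`.)

So the pair correlation conjecture turns into a statement on consecutive zeros, with an explicit
error: the root mean square over the blocks is `√(min(α, 1) L) + O(1 + log L)` for each fixed `L`.
This is equivalent to the conjecture, and so is the one-sided and purely qualitative bound
`≤ (min(α, 1) + ε) L` for the mean square, for arbitrarily large `L` only.  Under the Riemann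
hypothesis the law is true for `0 < α < 1`; and the strong pair correlation conjecture (Q1) implies
the law for `α > 1`.

Proof.  The number of the zeros in a window of `K` mean spacings has variance `O(1 + log K)`
(`MP_f58427_nt.NumberVariance`), and a dyadic chaining over `K` shows that the blocks and the windows
can be matched with an error of root mean square `O(1 + log L)`.  For the one-sided criterion the
upper bounds give upper bounds for the integrals of `exp(-a|α|) - exp(-b|α|)` against `F`; the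
integral of `exp(-b|α|)` is asymptotically at most `1 + o(1)` for large `b` by Montgomery's theorem
(unconditional form), and that of `exp(-a|α|)` at least `2/a` since each zero is paired with itself.
This determines all these integrals, which is enough by `MP_f58427_nt.SparseScales`.
-/

set_option autoImplicit false

open Filter MeasureTheory Topology

namespace Pool.Agent.Results.MP_00e05b_nt.ConsecutiveZeros

/-- multiplicity of `s` as a zero of the Riemann zeta function (order of vanishing at `s`) -/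
noncomputable def zmult (s : ℂ) : ℕ := analyticOrderNatAt riemannZeta s

/-- `N(t)`: the number of nontrivial zeros of `ζ` with ordinate in `(0, t]`, with multiplicity -/
noncomputable def N (t : ℝ) : ℕ :=
  ∑ᶠ s ∈ {s : ℂ | riemannZeta s = 0 ∧ 0 < s.re ∧ s.re < 1 ∧ 0 < s.im ∧ s.im ≤ t}, zmult s

/-- for `n ≥ 1`: the `n`-th positive ordinate `γ n` of a nontrivial zero of `ζ`, the ordinates being
listed in nondecreasing order and repeated according to multiplicity -/
noncomputable def γ (n : ℕ) : ℝ := sInf {t : ℝ | n ≤ N t}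

/-- Montgomery's function `F(α, T)`, as in the problem:
`((T/2π) log T)⁻¹ ∑_γ ∑_γ' T ^ (iα(γ - γ')) w(γ - γ')`, `w(u) = 4 / (4 + u²)`, over the ordinates in
`(0, T]` with multiplicity -/
noncomputable def F (α T : ℝ) : ℂ :=
  ((T / (2 * Real.pi) * Real.log T : ℝ) : ℂ)⁻¹ *
    ∑ n ∈ Finset.Icc 1 (N T), ∑ m ∈ Finset.Icc 1 (N T),
      (T : ℂ) ^ (Complex.I * α * ((γ n - γ m : ℝ) : ℂ)) * (4 / (4 + ((γ n - γ m : ℝ) : ℂ) ^ 2))

/-- the strong pair correlation conjecture (Q1): `F(α, T) = 1 + o(1)` uniformly on `[1, A]` -/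
def Strong : Prop := ∀ A : ℝ, 1 < A → ∀ ε : ℝ, 0 < ε → ∀ᶠ T : ℝ in atTop, ∀ α ∈ Set.Icc 1 A,
  ‖F α T - 1‖ ≤ ε

/-- the number of pairs of ordinates in `(0, T]` (with multiplicity) with
`0 < γ - γ' ≤ 2πa / log T` -/
noncomputable def pairs (T a : ℝ) : ℕ :=
  ((Finset.Icc 1 (N T) ×ˢ Finset.Icc 1 (N T)).filter
    fun p => 0 < γ p.1 - γ p.2 ∧ γ p.1 - γ p.2 ≤ 2 * Real.pi * a / Real.log T).card

/-- Montgomery's pair correlation conjecture (the classical, integrated form) -/
def PairCorrelation : Prop := ∀ a : ℝ, 0 < a →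
  Tendsto (fun T : ℝ => (pairs T a : ℝ) / (T / (2 * Real.pi) * Real.log T)) atTop
    (𝓝 (∫ u in (0 : ℝ)..a, (1 - (Real.sin (Real.pi * u) / (Real.pi * u)) ^ 2)))

/-- the root mean square of `z_{m+1} + … + z_{m+L}` for `1 ≤ m ≤ N(T)` (blocks of `L` consecutive
zeros) -/
noncomputable def blocks (z : ℕ → ℂ) (L : ℕ) (T : ℝ) : ℝ :=
  √((1 / N T) * ∑ m ∈ Finset.Icc 1 (N T), ‖∑ k ∈ Finset.Icc 1 L, z (m + k)‖ ^ 2)

/-- the root mean square over `0 ≤ t ≤ T` of the sum of the `z_j` with `t < γ_j ≤ t + 2πL / log T`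
(windows of `L` mean spacings) -/
noncomputable def windows (z : ℕ → ℂ) (L : ℕ) (T : ℝ) : ℝ :=
  √((1 / T) * ∫ t in (0 : ℝ)..T,
    ‖∑ j ∈ Finset.Ioc (N t) (N (t + 2 * Real.pi * L / Real.log T)), z j‖ ^ 2)

/-- the weights `T ^ (iαγ_j)` -/
noncomputable def z (α T : ℝ) (j : ℕ) : ℂ := (T : ℂ) ^ (Complex.I * α * γ j)

/-- the Fejér kernel `(sin(πLx) / (πx))²`, of total mass `L` -/
noncomputable def K (L : ℕ) (x : ℝ) : ℝ := (Real.sin (Real.pi * L * x) / (Real.pi * x)) ^ 2

open Pool.Agent.Y744 (Xf Xf_pos PC gp)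
open H177.Lat (yy KK KK_ne ee)
open Q172.Diff

lemma N_eq : N = SG.NZ := rfl

lemma γ_eq : γ = SG.ord := rfl

lemma Xf_eq (T : ℝ) : T / (2 * Real.pi) * Real.log T = Xf T := by
  unfold Xf
  ring

lemma Icc_Ioc (n : ℕ) : Finset.Icc 1 n = Finset.Ioc 0 n := by
  ext k
  simp only [Finset.mem_Icc, Finset.mem_Ioc]
  omega

lemma block_eq (w : ℕ → ℂ) (m L : ℕ) : ∑ k ∈ Finset.Icc 1 L, w (m + k) = Wz w L m := by
  unfold Wz
  induction L with
  | zero => simp
  | succ L ih =>
    rw [Finset.sum_Icc_succ_top (by omega), ih, ← add_assoc,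
      Finset.sum_Ioc_succ_top (by omega)]

lemma blocks_eq (w : ℕ → ℂ) (L : ℕ) (T : ℝ) : blocks w L T =
    √(1 / SG.NZ T * ∑ m ∈ Finset.Icc 1 (SG.NZ T), ‖Wz w L m‖ ^ 2) := by
  unfold blocks
  simp only [block_eq]
  rfl

lemma windows_eq (w : ℕ → ℂ) (L : ℕ) {T : ℝ} (hT : 1 < T) : windows w L T =
    √(1 / Xf T * ∫ t in (0:ℝ)..(Xf T), ‖Uw (nT T) w L t‖ ^ 2) := by
  have hX := Xf_pos hT
  have hl := Real.log_pos hT
  have h := scale_int hT (fun t => ‖∑ j ∈ Finset.Ioc (SG.NZ t)
    (SG.NZ (t + 2 * Real.pi * L / Real.log T)), w j‖ ^ 2)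
  have e : (fun t : ℝ => ‖∑ j ∈ Finset.Ioc (SG.NZ (2 * Real.pi / Real.log T * t))
    (SG.NZ (2 * Real.pi / Real.log T * t + 2 * Real.pi * L / Real.log T)), w j‖ ^ 2) =
    fun t => ‖Uw (nT T) w L t‖ ^ 2 := by
    funext t
    unfold Uw nT
    rw [show 2 * Real.pi / Real.log T * t + 2 * Real.pi * L / Real.log T =
      2 * Real.pi / Real.log T * (t + L) by ring]
  rw [e] at h
  rw [h, ← mul_assoc, one_div_mul_cancel hX.ne', one_mul]
  rfl

lemma z_eq {T : ℝ} (hT : 0 < T) (α : ℝ) : z α T = zw α T := by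
  funext j
  have hT0 : (T : ℂ) ≠ 0 := by exact_mod_cast hT.ne'
  unfold z zw ee yy
  rw [Complex.cpow_def_of_ne_zero hT0, ← Complex.ofReal_log hT.le, γ_eq]
  congr 1
  have hpi : (Real.pi : ℂ) ≠ 0 := by exact_mod_cast Real.pi_ne_zero
  push_cast
  field_simp

lemma blocks_z {T : ℝ} (hT : 0 < T) (α : ℝ) (L : ℕ) : blocks (z α T) L T = √(VV α T L) := by
  rw [blocks_eq, z_eq hT]
  rfl

lemma term_re {T : ℝ} (hT : 1 < T) (α : ℝ) (n m : ℕ) :
    ((T : ℂ) ^ (Complex.I * α * ((γ n - γ m : ℝ) : ℂ)) *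
      (4 / (4 + ((γ n - γ m : ℝ) : ℂ) ^ 2))).re =
      Real.cos (2 * Real.pi * α * (yy T n - yy T m)) *
        Pool.Agent.Y749.Rig.ww (2 * Real.pi * (yy T n - yy T m) / Real.log T) := by
  have hT' : 0 < T := by linarith
  have hT0 : (T : ℂ) ≠ 0 := by exact_mod_cast hT'.ne'
  have hl := Real.log_pos hT
  have hpi := Real.pi_pos
  have e1 : 2 * Real.pi * (yy T n - yy T m) / Real.log T = γ n - γ m := by
    rw [γ_eq]
    unfold yy
    field_simp
  have e2 : 2 * Real.pi * α * (yy T n - yy T m) = α * Real.log T * (γ n - γ m) := by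
    rw [γ_eq]
    unfold yy
    field_simp
  rw [e1, e2]
  set d := γ n - γ m with hd
  rw [Complex.cpow_def_of_ne_zero hT0, ← Complex.ofReal_log hT'.le]
  have e : (Real.log T : ℂ) * (Complex.I * α * (d : ℂ)) =
      ((α * Real.log T * d : ℝ) : ℂ) * Complex.I := by push_cast; ring
  have e3 : (4 / (4 + (d : ℂ) ^ 2)) = ((Pool.Agent.Y749.Rig.ww d : ℝ) : ℂ) := by
    unfold Pool.Agent.Y749.Rig.ww
    push_cast
    rfl
  rw [e, e3, Complex.re_mul_ofReal, Complex.exp_ofReal_mul_I_re]

lemma F_re {T : ℝ} (hT : 1 < T) (α : ℝ) : (F α T).re = Fw T α := by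
  unfold F Fw Pk
  rw [← Complex.ofReal_inv, Complex.re_ofReal_mul, Complex.re_sum, Xf_eq, Icc_Ioc]
  congr 1
  refine Finset.sum_congr rfl fun n _ => ?_
  rw [Complex.re_sum]
  exact Finset.sum_congr rfl fun m _ => term_re hT α n m

lemma K_eq {L : ℕ} (hL : 1 ≤ L) {x : ℝ} (hx : x ≠ 0) : K L x = Pool.Agent.Q276.NV.GG L x := by
  have hL0 : (L : ℝ) ≠ 0 := by
    have : (1:ℝ) ≤ L := by exact_mod_cast hL
    linarith
  unfold K Pool.Agent.Q276.NV.GG
  rw [KK_ne one_pos (mul_ne_zero hL0 hx), one_mul, one_mul]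
  have hpi := Real.pi_ne_zero
  rw [show Real.pi * (L : ℝ) * x = Real.pi * (L * x) by ring, div_pow, div_pow]
  field_simp

lemma avg_eq {L : ℕ} (hL : 1 ≤ L) {T : ℝ} (hT : 1 < T) (α : ℝ) :
    ∫ β, K L (β - α) * (F β T).re = Fav T L α := by
  unfold Fav
  refine integral_congr_ae ?_
  have h0 : ∀ᵐ β : ℝ, β ≠ α := by
    rw [ae_iff]
    simp
  filter_upwards [h0] with β hβ
  rw [F_re hT, K_eq hL (sub_ne_zero.2 hβ)]

lemma pairs_eq {T a : ℝ} (hT : 1 < T) : (pairs T a : ℝ) = PC T (Set.Ioc 0 a) := by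
  have hl := Real.log_pos hT
  have hpi := Real.pi_pos
  rw [Pool.Agent.Q276.NV.PC_conv]
  unfold pairs
  rw [Finset.card_filter, Finset.sum_product]
  push_cast
  rw [Icc_Ioc]
  refine Finset.sum_congr rfl fun n _ => Finset.sum_congr rfl fun m _ => ?_
  have e : (0 < γ n - γ m ∧ γ n - γ m ≤ 2 * Real.pi * a / Real.log T) ↔
      yy T n - yy T m ∈ Set.Ioc 0 a := by
    rw [γ_eq]
    have e1 : yy T n - yy T m = (SG.ord n - SG.ord m) * (Real.log T / (2 * Real.pi)) := by
      unfold yy
      ring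
    rw [e1, Set.mem_Ioc, mul_pos_iff_of_pos_right (by positivity), le_div_iff₀ hl,
      mul_div_assoc', div_le_iff₀ (by positivity)]
    constructor
    · rintro ⟨h1, h2⟩
      exact ⟨h1, by linarith⟩
    · rintro ⟨h1, h2⟩
      exact ⟨h1, by linarith⟩
  by_cases h : yy T n - yy T m ∈ Set.Ioc 0 a
  · rw [if_pos (e.2 h), Set.indicator_of_mem h]
  · rw [if_neg (fun h' => h (e.1 h')), Set.indicator_of_notMem h]

lemma pc_iff : PairCorrelation ↔ Q241.OP.Mont := by
  have hpi := Real.pi_pos
  have hP : ∀ a : ℝ, ∫ u in (0 : ℝ)..a, (1 - (Real.sin (Real.pi * u) / (Real.pi * u)) ^ 2) =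
      gp a := by
    intro a
    have h := Q241.OP.P_eq a
    unfold Q241.OP.P at h
    have h2 := congrArg (fun x => 2 * Real.pi * x) h
    rw [← mul_assoc, mul_one_div_cancel (by positivity), one_mul,
      mul_div_cancel₀ _ (by positivity)] at h2
    exact h2
  refine forall_congr' fun a => forall_congr' fun ha => ?_
  have h1 := Q241.OP.Tend_iff ha.le
  unfold Q241.OP.Nq at h1
  rw [h1, hP]
  have e : (fun T : ℝ => Q241.OP.Dn T a) =ᶠ[atTop]
      fun T : ℝ => 2 * ((pairs T a : ℝ) / (T / (2 * Real.pi) * Real.log T)) := by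
    filter_upwards [eventually_gt_atTop 1] with T hT
    rw [Q241.OP.Dn_eq ha.le, pairs_eq hT, Xf_eq]
    ring
  rw [tendsto_congr' e]
  constructor
  · intro h
    exact h.const_mul 2
  · intro h
    have h2 := h.const_mul (1 / 2)
    rw [show 1 / 2 * (2 * gp a) = gp a by ring] at h2
    refine h2.congr fun T => ?_
    ring

/-- No hypothesis is assumed unless stated.

(1) Blocks and windows: there is a constant `C` such that for all `L ≥ 1`, all large `T` and all
complex numbers `z_j` with `|z_j| ≤ 1`, the root mean squares of the sums of the `z_j` over the blocks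
of `L` consecutive zeros and over the windows of `L` mean spacings differ by at most
`C (1 + log L)`.

(2) There is a constant `C` such that for all `L ≥ 1`, all large `T` and all real `α`, the root mean
square of the sums of `T ^ (iαγ)` over the blocks of `L` consecutive zeros differs by at most
`C (1 + log L)` from the square root of `∫ (sin(πL(β - α)) / (π(β - α)))² F(β, T) dβ`.

(3) The pair correlation conjecture is equivalent to: for all `0 < a < b` there is `C` such that for
all `L ≥ 1`, all large `T` and all `α` in `[a, b]` the root mean square in (2) is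
`√(min(α, 1) L)` with an error of at most `C (1 + log L)`.

(4) The pair correlation conjecture is equivalent to: for all `0 < a < b` and `ε > 0` there are
arbitrarily large `L` such that for each `α` in `[a, b]` the mean square of the sums in (2) is at
most `(min(α, 1) + ε) L` for all large `T`.

(5) Under the Riemann hypothesis the law in (3) holds for all `0 < a`, `b < 1`.

(6) The strong pair correlation conjecture (Q1) implies that for all `1 < a`, `b` there is `C` such
that for all `L ≥ 1`, all large `T` and all `α` in `[a, b]` the root mean square in (2) is `√L` with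
an error of at most `C (1 + log L)`. -/
theorem result :
    (∃ C : ℝ, ∀ L : ℕ, 1 ≤ L → ∀ᶠ T : ℝ in atTop, ∀ w : ℕ → ℂ, (∀ j, ‖w j‖ ≤ 1) →
      |windows w L T - blocks w L T| ≤ C * (1 + Real.log L)) ∧
    (∃ C : ℝ, ∀ L : ℕ, 1 ≤ L → ∀ᶠ T : ℝ in atTop, ∀ α : ℝ,
      |blocks (z α T) L T - √(∫ β, K L (β - α) * (F β T).re)| ≤ C * (1 + Real.log L)) ∧
    (PairCorrelation ↔ ∀ a b : ℝ, 0 < a → a < b → ∃ C : ℝ, ∀ L : ℕ, 1 ≤ L →
      ∀ᶠ T : ℝ in atTop, ∀ α ∈ Set.Icc a b,
        |blocks (z α T) L T - √(min α 1 * L)| ≤ C * (1 + Real.log L)) ∧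
    (PairCorrelation ↔ ∀ a b : ℝ, 0 < a → a < b → ∀ ε : ℝ, 0 < ε → ∀ L₀ : ℕ, ∃ L : ℕ, L₀ ≤ L ∧
      ∀ α ∈ Set.Icc a b, ∀ᶠ T : ℝ in atTop, blocks (z α T) L T ^ 2 ≤ (min α 1 + ε) * L) ∧
    (RiemannHypothesis → ∀ a b : ℝ, 0 < a → b < 1 → ∃ C : ℝ, ∀ L : ℕ, 1 ≤ L →
      ∀ᶠ T : ℝ in atTop, ∀ α ∈ Set.Icc a b,
        |blocks (z α T) L T - √(α * L)| ≤ C * (1 + Real.log L)) ∧
    (Strong → ∀ a b : ℝ, 1 < a → ∃ C : ℝ, ∀ L : ℕ, 1 ≤ L →
      ∀ᶠ T : ℝ in atTop, ∀ α ∈ Set.Icc a b,
        |blocks (z α T) L T - √L| ≤ C * (1 + Real.log L)) := by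
  have ev : ∀ᶠ T : ℝ in atTop, (1 : ℝ) < T := eventually_gt_atTop 1
  refine ⟨?_, ?_, ?_, ?_, ?_, ?_⟩
  · obtain ⟨C, _, h⟩ := idx_pos_zeta
    refine ⟨C, fun L hL => ?_⟩
    filter_upwards [h L hL, ev] with T h1 hT w hw
    rw [blocks_eq, windows_eq w L hT]
    exact h1 w hw
  · obtain ⟨C, _, h⟩ := idx_Fav
    refine ⟨C, fun L hL => ?_⟩
    filter_upwards [h L hL, ev] with T h1 hT α
    rw [blocks_z (by linarith), avg_eq hL hT]
    exact h1 α
  · rw [pc_iff, mont_law]
    refine forall_congr' fun a => forall_congr' fun b => forall_congr' fun ha =>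
      forall_congr' fun hab => exists_congr fun C => forall_congr' fun L =>
      forall_congr' fun hL => ?_
    constructor
    · intro h
      filter_upwards [h, ev] with T h1 hT α hα
      rw [blocks_z (by linarith)]
      exact h1 α hα
    · intro h
      filter_upwards [h, ev] with T h1 hT α hα
      have h2 := h1 α hα
      rwa [blocks_z (by linarith)] at h2
  · rw [pc_iff, mont_up]
    refine forall_congr' fun a => forall_congr' fun b => forall_congr' fun ha =>
      forall_congr' fun hab => forall_congr' fun ε => forall_congr' fun hε =>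
      forall_congr' fun L₀ => exists_congr fun L => and_congr_right fun hL =>
      forall_congr' fun α => forall_congr' fun hα => ?_
    constructor
    · intro h
      filter_upwards [h, ev] with T h1 hT
      rw [blocks_z (by linarith), Real.sq_sqrt (VV_nonneg _ _ _)]
      exact h1
    · intro h
      filter_upwards [h, ev] with T h1 hT
      rwa [blocks_z (by linarith), Real.sq_sqrt (VV_nonneg _ _ _)] at h1
  · intro RH a b ha hb
    obtain ⟨C, _, h⟩ := idx_rh RH ha hb
    refine ⟨C, fun L hL => ?_⟩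
    filter_upwards [h L hL, ev] with T h1 hT α hα
    rw [blocks_z (by linarith)]
    exact h1 α hα
  · intro H a b ha
    obtain ⟨C, _, h⟩ := idx_strong (b := b) (fun A hA ε hε => by
      filter_upwards [H A hA ε hε, ev] with T h1 hT α hα
      have h2 := h1 α hα
      have h3 := Complex.abs_re_le_norm (F α T - 1)
      rw [Complex.sub_re, F_re hT, Complex.one_re] at h3
      exact h3.trans h2) ha
    refine ⟨C, fun L hL => ?_⟩
    filter_upwards [h L hL, ev] with T h1 hT α hα
    rw [blocks_z (by linarith)]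
    exact h1 α hα

end Pool.Agent.Results.MP_00e05b_nt.ConsecutiveZeros
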