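import Pool.Agent.Q97.UM.Wf7
import Pool.Agent.Q97.UM.IsoF
import Pool.Agent.Q261.UM.ABS
import Pool.Agent.Q224.UM.ABU

set_option autoImplicit false

/-!
# MP_00e05b_nt: the field `log |ζ|` seen from the zeros, and pair correlation

Let `V(t)` be the mean value of `log |ζ(1/2 + ix)|` over the interval `|x - t| ≤ 1 / log T`, divided by `√(½ log log T)`. We show, without any
hypothesis, that the values `V(γ + h_1), ..., V(γ + h_n)` at the ordinates `γ` of ALL the zeros in `(T, 2T]` have asymptotically the centered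
normal law with covariances `σ_ij`, for arbitrary shifts `h_i = h_i(T)`, `|h_i| ≤ 1`, with `|h_i - h_j| + 1/log T = (log T)^(-σ_ij + o(1))`. The zeros
see the same logarithmically correlated field as typical points. The proportions of distinct and of simple zeros do not depend on the field. On
the Riemann hypothesis, in Montgomery's range the pair correlation of the zeros is asymptotically independent of the whole field.
-/

namespace Pool.Agent.Results.MP_00e05b_nt.FieldSeenFromZeros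

open Filter Topology MeasureTheory Complex ProbabilityTheory

noncomputable section

/-- the Riemann hypothesis -/
def RH : Prop := ∀ s : ℂ, riemannZeta s = 0 → 0 < s.re → s.re < 1 → s.re = 1 / 2

/-- the nontrivial zeros of zeta with ordinate in `(T, 2T]` -/
def zeros (T : ℝ) : Set ℂ := {s : ℂ | riemannZeta s = 0 ∧ 0 < s.re ∧ s.re < 1 ∧ T < s.im ∧ s.im ≤ 2 * T}

/-- multiplicity of a zero -/
def m (s : ℂ) : ℝ := (analyticOrderNatAt riemannZeta s : ℝ)

/-- the number of these zeros, with multiplicity -/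
def N (T : ℝ) : ℝ := ∑ᶠ s ∈ zeros T, m s

/-- the mean value of `log |ζ(1/2 + ix)|` over `|x - t| ≤ 1 / log T`, divided by `√(½ log log T)` -/
def V (T t : ℝ) : ℝ :=
  (Real.log T / 2 * ∫ x in (t - 1 / Real.log T)..(t + 1 / Real.log T), Real.log ‖riemannZeta (1 / 2 + x * I)‖) /
    Real.sqrt (Real.log (Real.log T) / 2)

/-- the vector `V(t + h_1), ..., V(t + h_n)` -/
def vec {n : ℕ} (h : Fin n → ℝ → ℝ) (T t : ℝ) : EuclideanSpace ℝ (Fin n) := WithLp.toLp 2 (fun i => V T (t + h i T))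

/-- the shifts: `|h_i| ≤ 1` for large `T`, and `|h_i - h_j| + 1 / log T = (log T)^(-σ_ij + o(1))` -/
def Shifts {n : ℕ} (h : Fin n → ℝ → ℝ) (σ : Fin n → Fin n → ℝ) : Prop := (∀ i, ∀ᶠ T : ℝ in atTop, |h i T| ≤ 1) ∧
  ∀ i j, Tendsto (fun T : ℝ => -Real.log (|h i T - h j T| + 1 / Real.log T) / Real.log (Real.log T)) atTop (𝓝 (σ i j))

/-- the centered normal law with covariance matrix `σ` -/
def normal {n : ℕ} (σ : Fin n → Fin n → ℝ) : Measure (EuclideanSpace ℝ (Fin n)) := multivariateGaussian 0 (Matrix.of σ)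

/-- the variance of `∑ u_i V(γ + h_i)` -/
def var {n : ℕ} (σ : Fin n → Fin n → ℝ) (u : Fin n → ℝ) : ℝ := ∑ i, ∑ j, u i * u j * σ i j

/-- the normalised linear combination -/
def Y {n : ℕ} (h : Fin n → ℝ → ℝ) (σ : Fin n → Fin n → ℝ) (u : Fin n → ℝ) (T t : ℝ) : ℝ :=
  (∑ i, u i * V T (t + h i T)) / Real.sqrt (var σ u)

/-- the standard normal law -/
def Phi (J : Set ℝ) : ℝ := (gaussianReal 0 1).real J

/-- the number of zeros with `W(γ) ∈ J`, with multiplicity -/
def Number (W : ℝ → ℝ → ℝ) (J : Set ℝ) (T : ℝ) : ℝ := ∑ᶠ s ∈ zeros T, Set.indicator {s : ℂ | W T s.im ∈ J} m s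

/-- the distinct zeros with real part at most `1/2` and `W(γ) ∈ J` -/
def distinct (W : ℝ → ℝ → ℝ) (J : Set ℝ) (T : ℝ) : Set ℂ := {s ∈ zeros T | s.re ≤ 1 / 2 ∧ W T s.im ∈ J}

/-- the simple zeros on the critical line with `W(γ) ∈ J` all of whose distances from the other nontrivial zeros are at least `d / log T` -/
def isolated (W : ℝ → ℝ → ℝ) (d : ℝ) (J : Set ℝ) (T : ℝ) : Set ℂ :=
  {s ∈ zeros T | s.re = 1 / 2 ∧ deriv riemannZeta s ≠ 0 ∧ W T s.im ∈ J ∧
    ∀ ρ : ℂ, riemannZeta ρ = 0 → 0 < ρ.re → ρ.re < 1 → ρ ≠ s → d / Real.log T ≤ ‖ρ - s‖}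

/-- the constant `1.3274…` of Montgomery and Taylor -/
def c : ℝ := 1 / 2 + Real.cot (1 / Real.sqrt 2) / Real.sqrt 2

/-- the test function with transform `R` -/
def f (R : ℝ → ℝ) (x : ℝ) : ℝ := ∫ α in (-1 : ℝ)..1, R α * Real.cos (α * x)

/-- admissible transforms: Lipschitz, even, supported in `[-1, 1]`, and `f(x) = O(1 / (1 + x²))` -/
structure Admissible (R : ℝ → ℝ) : Prop where
  lip : ∃ D : ℝ, ∀ x y : ℝ, |R x - R y| ≤ D * |x - y|
  even : ∀ x : ℝ, R (-x) = R x
  supp : ∀ x : ℝ, 1 ≤ |x| → R x = 0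
  dec : ∃ M : ℝ, ∀ x : ℝ, |f R x| ≤ M / (1 + x ^ 2)

/-- the sum over the pairs of zeros `ρ`, `ρ'` (ordinates `γ`, `γ'`) of `m(ρ) m(ρ') f(lam (γ - γ') log T) g(V(γ + h_1), ..., V(γ + h_n))` -/
def Pairs {n : ℕ} (h : Fin n → ℝ → ℝ) (g : EuclideanSpace ℝ (Fin n) → ℝ) (R : ℝ → ℝ) (lam : ℝ) (T : ℝ) : ℝ :=
  ∑ᶠ s ∈ zeros T, m s * (∑ᶠ s' ∈ zeros T, m s' * f R (lam * Real.log T * (s.im - s'.im))) * g (vec h T s.im)

/-- the value predicted by the pair correlation conjecture: the integral of the form factor `δ₀(α) + min(|α|, 1)` against the transform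
`R(α / lam) / lam` of `f(lam x)`, `lam < 1` -/
def predicted (R : ℝ → ℝ) (lam : ℝ) : ℝ := R 0 / lam + 2 * lam * ∫ α in (0 : ℝ)..1, α * R α

lemma zeros_eq (T : ℝ) : zeros T = H370.zset riemannZeta T (2 * T) := by
  ext s
  simp only [zeros, H370.zset, Set.mem_ofPred_eq]
  tauto

theorem zeros_finite (T : ℝ) (h : 0 < T) : (zeros T).Finite := by
  rw [zeros_eq]
  exact H370.zset_finite' H370.good_zeta T (2 * T) h

theorem N_eq (T : ℝ) (h : 1 ≤ T) : N T = ∑ s ∈ H370.Zf riemannZeta T (2 * T), (Pool.Agent.Q97.UM.mz s : ℝ) := by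
  unfold N
  rw [zeros_eq, H370.finsum_Zf H370.good_zeta h]
  rfl

lemma V_eq (T t : ℝ) : V T t = Pool.Agent.Q97.UM.LM T t / Real.sqrt (Real.log (Real.log T) / 2) := rfl

lemma vec_eq {n : ℕ} (h : Fin n → ℝ → ℝ) (T : ℝ) (s : ℂ) : vec h T s.im = Pool.Agent.Q97.UM.vecF h T s := rfl

lemma Y_eq {n : ℕ} (h : Fin n → ℝ → ℝ) (σ : Fin n → Fin n → ℝ) (u : Fin n → ℝ) (T : ℝ) (s : ℂ) :
    Y h σ u T s.im = Pool.Agent.Q97.UM.yF h u (Pool.Agent.Q97.UM.vv σ u) T s := rfl

open Classical in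
theorem Number_eq {W : ℝ → ℝ → ℝ} {y : ℝ → ℂ → ℝ} (hW : ∀ T s, W T s.im = y T s) (J : Set ℝ) (T : ℝ) (h : 1 ≤ T) : Number W J T =
    ∑ s ∈ (H370.Zf riemannZeta T (2 * T)).filter (fun s => y T s ∈ J), (Pool.Agent.Q97.UM.mz s : ℝ) := by
  unfold Number
  rw [zeros_eq, H370.finsum_Zf H370.good_zeta h, Finset.sum_filter]
  refine Finset.sum_congr rfl fun s _ => ?_
  rw [Set.indicator_apply]
  simp only [Set.mem_ofPred_eq, hW]
  rfl

open Classical in
lemma distinct_eq {W : ℝ → ℝ → ℝ} {y : ℝ → ℂ → ℝ} (hW : ∀ T s, W T s.im = y T s) (J : Set ℝ) (T : ℝ) (h : 1 ≤ T) : distinct W J T =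
    (((Pool.Agent.Q97.UM.ZL 1 T).filter (fun s => y T s ∈ J) : Finset ℂ) : Set ℂ) := by
  ext s
  simp only [distinct, Set.mem_ofPred_eq, Finset.coe_filter, Pool.Agent.Q97.UM.ZL, Finset.mem_filter, H370.mem_Zf H370.good_zeta h, zeros,
    hW, H370.zset]
  tauto

open Classical in
lemma isolated_eq {W : ℝ → ℝ → ℝ} {y : ℝ → ℂ → ℝ} (hW : ∀ T s, W T s.im = y T s) (d : ℝ) (J : Set ℝ) (T : ℝ) (h : 16 ≤ T) (hd : d ≤ 1) :
    isolated W d J T = (((Pool.Agent.Q97.UM.ZI d T).filter (fun s => y T s ∈ J) : Finset ℂ) : Set ℂ) := by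
  ext s
  simp only [isolated, Set.mem_ofPred_eq, Finset.coe_filter, Pool.Agent.Q97.UM.mem_ZI_iff h hd, zeros, hW]
  constructor
  · rintro ⟨⟨h1, h2, h3, h4, h5⟩, h6, h7, h8, h9⟩
    exact ⟨⟨h6, h4, h5, h1, h7, h9⟩, h8⟩
  · rintro ⟨⟨h6, h4, h5, h1, h7, h9⟩, h8⟩
    exact ⟨⟨h1, by rw [h6]; norm_num, by rw [h6]; norm_num, h4, h5⟩, h6, h7, h8, h9⟩

theorem Pairs_eq {n : ℕ} (h : Fin n → ℝ → ℝ) (g : EuclideanSpace ℝ (Fin n) → ℝ) (R : ℝ → ℝ) (lam : ℝ) (T : ℝ) (hT : 1 ≤ T) :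
    Pairs h g R lam T =
    ∑ s ∈ H370.Zf riemannZeta T (2 * T), Pool.Agent.Q97.UM.pw R lam T s * g (Pool.Agent.Q97.UM.vecF h T s) := by
  unfold Pairs
  rw [zeros_eq, H370.finsum_Zf H370.good_zeta hT]
  refine Finset.sum_congr rfl fun s _ => ?_
  have e1 : m s * ∑ᶠ s' ∈ H370.zset riemannZeta T (2 * T), m s' * f R (lam * Real.log T * (s.im - s'.im)) =
      Pool.Agent.Q97.UM.pw R lam T s := by
    rw [H370.finsum_Zf H370.good_zeta hT]
    rfl
  rw [e1]
  rfl

/-- the number of zeros, `(log T / 2π) T` -/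
theorem N_asymp (ε : ℝ) (hε : 0 < ε) : ∀ᶠ T : ℝ in atTop, |N T - Pool.Agent.Q97.UM.AT T| ≤ ε * Pool.Agent.Q97.UM.AT T := by
  obtain ⟨δ₁, h1, h2⟩ := Pool.Agent.Q97.UM.b_LAWA 1 ε hε
  filter_upwards [h2 δ₁ h1 le_rfl, eventually_ge_atTop 1] with T h3 hT
  rw [N_eq T hT]
  simp only [Polynomial.eval_one, mul_one, integral_const, smul_eq_mul, probReal_univ, one_mul] at h3
  exact h3

theorem N_ratio : Tendsto (fun T : ℝ => N T / Pool.Agent.Q97.UM.AT T) atTop (𝓝 1) := by
  rw [Metric.tendsto_nhds]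
  intro ε hε
  filter_upwards [N_asymp (ε / 2) (by positivity), eventually_ge_atTop (3 : ℝ)] with T h hT
  have hA0 := Pool.Agent.Q97.UM.AT_pos hT
  rw [Real.dist_eq]
  have e1 : N T / Pool.Agent.Q97.UM.AT T - 1 = (N T - Pool.Agent.Q97.UM.AT T) / Pool.Agent.Q97.UM.AT T := by
    field_simp
  rw [e1, abs_div, abs_of_pos hA0, div_lt_iff₀ hA0]
  refine h.trans_lt ?_
  nlinarith

/-- passing from `AT T` to `N T` -/
theorem ratio {S : ℝ → ℝ} {a : ℝ} (h : Tendsto (fun T : ℝ => S T / Pool.Agent.Q97.UM.AT T) atTop (𝓝 a)) :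
    Tendsto (fun T : ℝ => S T / N T) atTop (𝓝 a) := by
  have h1 := h.div N_ratio one_ne_zero
  rw [div_one] at h1
  refine h1.congr' ?_
  filter_upwards [eventually_ge_atTop (3 : ℝ)] with T hT
  have hA0 := Pool.Agent.Q97.UM.AT_pos hT
  simp only [Pi.div_apply]
  rw [div_div_div_cancel_right₀ hA0.ne']

/-- passing from `AT T` to `N T` -/
theorem to_N {A n S u ε : ℝ} (hA : 0 < A) (hε : 0 < ε) (hu0 : 0 ≤ u) (hu1 : u ≤ 1) (h1 : (u - ε / 4) * A ≤ S)
    (h2 : |n - A| ≤ min (ε / 4) (1 / 2) * A) : (u - ε) * n ≤ S := by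
  refine le_trans ?_ h1
  have hm1 := min_le_left (ε / 4) (1 / 2 : ℝ)
  have hm2 := min_le_right (ε / 4) (1 / 2 : ℝ)
  rw [abs_le] at h2
  have hN0 : 0 ≤ n := by nlinarith [h2.1]
  have hNA : n ≤ (1 + ε / 4) * A := by nlinarith [h2.2]
  have hNA2 : n ≤ 2 * A := by nlinarith [h2.2]
  have hNA3 : A / 2 ≤ n := by nlinarith [h2.1]
  rcases le_or_gt (u - ε) 0 with h5 | h5
  · rcases le_or_gt (u - ε / 4) 0 with h6 | h6
    · nlinarith
    · exact (mul_nonpos_of_nonpos_of_nonneg h5 hN0).trans (by positivity)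
  · calc (u - ε) * n ≤ (u - ε) * ((1 + ε / 4) * A) := mul_le_mul_of_nonneg_left hNA h5.le
      _ = ((u - ε) * (1 + ε / 4)) * A := by ring
      _ ≤ (u - ε / 4) * A := by
          apply mul_le_mul_of_nonneg_right _ hA.le
          nlinarith

theorem to_N2 {A n S g ε : ℝ} (hA : 0 < A) (hε : 0 < ε) (hg0 : 0 ≤ g) (hg1 : g ≤ 1) (h1 : |S - g * A| ≤ ε / 4 * A)
    (h2 : |n - A| ≤ min (ε / 4) (1 / 2) * A) : |S - g * n| ≤ ε * n := by
  have hm1 := min_le_left (ε / 4) (1 / 2 : ℝ)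
  have hm2 := min_le_right (ε / 4) (1 / 2 : ℝ)
  have h3 : |n - A| ≤ ε / 4 * A := h2.trans (mul_le_mul_of_nonneg_right hm1 hA.le)
  have h4 : A / 2 ≤ n := by
    have := (abs_le.1 (h2.trans (mul_le_mul_of_nonneg_right hm2 hA.le))).1
    linarith
  calc |S - g * n| = |(S - g * A) + g * (A - n)| := by ring_nf
    _ ≤ |S - g * A| + |g * (A - n)| := abs_add_le _ _
    _ ≤ ε / 4 * A + ε / 4 * A := by
        apply add_le_add h1
        rw [abs_mul, abs_of_nonneg hg0, abs_sub_comm A n]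
        calc g * |n - A| ≤ 1 * (ε / 4 * A) := by gcongr
          _ = _ := one_mul _
    _ = ε * (A / 2) := by ring
    _ ≤ ε * n := by gcongr

/-- an example of shifts: `V(γ)` and `V(γ + a (log T)^(-s))` have correlation `s` -/
theorem shifts_two (a s : ℝ) (ha : a ≠ 0) (hs0 : 0 < s) (hs1 : s ≤ 1) :
    Shifts (n := 2) (fun i T => if i = 0 then 0 else a * Real.log T ^ (-s)) (fun i j => if i = j then 1 else s) := by
  have hL : Tendsto (fun T : ℝ => Real.log T) atTop atTop := Real.tendsto_log_atTop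
  have hLL : Tendsto (fun T : ℝ => Real.log (Real.log T)) atTop atTop := hL.comp hL
  have ha0 : 0 < |a| := abs_pos.2 ha
  constructor
  · intro i
    fin_cases i
    · refine Eventually.of_forall fun T => ?_
      simp
    · have h1 : Tendsto (fun T : ℝ => |a| * Real.log T ^ (-s)) atTop (𝓝 (|a| * 0)) :=
        ((tendsto_rpow_neg_atTop hs0).comp hL).const_mul _
      rw [mul_zero] at h1
      filter_upwards [h1.eventually_le_const one_pos, hL.eventually_gt_atTop 0] with T h2 h3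
      have h4 : 0 < Real.log T ^ (-s) := Real.rpow_pos_of_pos h3 _
      simp only [Fin.mk_one, Fin.isValue, one_ne_zero, if_false, abs_mul, abs_of_pos h4]
      exact h2
  · have diag : Tendsto (fun T : ℝ => -Real.log (|(0 : ℝ)| + 1 / Real.log T) / Real.log (Real.log T)) atTop (𝓝 1) := by
      refine tendsto_const_nhds.congr' ?_
      filter_upwards [hLL.eventually_gt_atTop 0] with T hT
      rw [abs_zero, zero_add, one_div, Real.log_inv, neg_neg, div_self hT.ne']
    have off : Tendsto (fun T : ℝ => -Real.log (|a| * Real.log T ^ (-s) + 1 / Real.log T) / Real.log (Real.log T)) atTop (𝓝 s) := by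
      have h1 : Tendsto (fun T : ℝ => (|Real.log (|a|)| + |Real.log (|a| + 1)|) / Real.log (Real.log T)) atTop (𝓝 0) :=
        hLL.const_div_atTop _
      have h2 : Tendsto (fun T : ℝ => -Real.log (|a| * Real.log T ^ (-s) + 1 / Real.log T) / Real.log (Real.log T) - s) atTop (𝓝 0) := by
        refine squeeze_zero_norm' ?_ h1
        filter_upwards [hLL.eventually_gt_atTop 0, hL.eventually_ge_atTop 1] with T h3 h4
        have h5 : 0 < Real.log T := by linarith
        have h6 : 0 < Real.log T ^ (-s) := Real.rpow_pos_of_pos h5 _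
        have e1 : 1 / Real.log T = Real.log T ^ (s - 1) * Real.log T ^ (-s) := by
          rw [← Real.rpow_add h5, show s - 1 + -s = -1 by ring, Real.rpow_neg_one, one_div]
        have h7 : 0 < Real.log T ^ (s - 1) := Real.rpow_pos_of_pos h5 _
        have h8 : Real.log T ^ (s - 1) ≤ 1 := Real.rpow_le_one_of_one_le_of_nonpos h4 (by linarith)
        have e2 : Real.log (|a| * Real.log T ^ (-s) + 1 / Real.log T) = Real.log (|a| + Real.log T ^ (s - 1)) - s * Real.log (Real.log T) := by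
          rw [e1, ← add_mul, Real.log_mul (by positivity) h6.ne', Real.log_rpow h5]
          ring
        have e3 : -Real.log (|a| * Real.log T ^ (-s) + 1 / Real.log T) / Real.log (Real.log T) - s =
            -Real.log (|a| + Real.log T ^ (s - 1)) / Real.log (Real.log T) := by
          rw [e2]
          field_simp
          ring
        rw [e3, Real.norm_eq_abs, abs_div, abs_of_pos h3, abs_neg]
        gcongr
        have g1 : Real.log |a| ≤ Real.log (|a| + Real.log T ^ (s - 1)) := Real.log_le_log ha0 (by linarith)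
        have g2 : Real.log (|a| + Real.log T ^ (s - 1)) ≤ Real.log (|a| + 1) := Real.log_le_log (by positivity) (by linarith)
        rw [abs_le]
        constructor
        · have := neg_abs_le (Real.log |a|)
          have := abs_nonneg (Real.log (|a| + 1))
          linarith
        · have := le_abs_self (Real.log (|a| + 1))
          have := abs_nonneg (Real.log |a|)
          linarith
      have h3 := h2.add_const s
      rw [zero_add] at h3
      refine h3.congr fun T => ?_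
      ring
    have off' : Tendsto (fun T : ℝ => -Real.log (|a * Real.log T ^ (-s)| + 1 / Real.log T) / Real.log (Real.log T)) atTop (𝓝 s) := by
      refine off.congr' ?_
      filter_upwards [hL.eventually_gt_atTop 0] with T h3
      have h4 : 0 < Real.log T ^ (-s) := Real.rpow_pos_of_pos h3 _
      rw [abs_mul, abs_of_pos h4]
    intro i j
    fin_cases i <;> fin_cases j
    · simpa using diag
    · refine (off'.congr fun T => ?_)
      simp
    · refine (off'.congr fun T => ?_)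
      simp
    · simpa using diag

theorem result :
    (∀ T : ℝ, 0 < T → (zeros T).Finite) ∧
    (∀ (n : ℕ) (h : Fin n → ℝ → ℝ) (σ : Fin n → Fin n → ℝ), Shifts h σ → (Matrix.of σ).PosSemidef ∧ (∀ i, σ i i = 1) ∧
      ∀ g : BoundedContinuousFunction (EuclideanSpace ℝ (Fin n)) ℝ,
        Tendsto (fun T : ℝ => (∑ᶠ s ∈ zeros T, m s * g (vec h T s.im)) / N T) atTop (𝓝 (∫ y, g y ∂(normal σ)))) ∧
    (∀ (n : ℕ) (h : Fin n → ℝ → ℝ) (σ : Fin n → Fin n → ℝ), Shifts h σ → ∀ u : Fin n → ℝ, 0 < var σ u →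
      ∀ J : Set ℝ, J.OrdConnected → ∀ ε : ℝ, 0 < ε → ∃ d T₀ : ℝ, 0 < d ∧ ∀ T : ℝ, T₀ ≤ T →
        |Number (Y h σ u) J T - Phi J * N T| ≤ ε * N T ∧
        ((3 - c) / 2 * Phi J - ε) * N T ≤ ((distinct (Y h σ u) J T).ncard : ℝ) ∧
        ((2 - c) * Phi J - ε) * N T ≤ ((isolated (Y h σ u) d J T).ncard : ℝ)) ∧
    (RH → ∀ R : ℝ → ℝ, Admissible R → ∀ lam : ℝ, 0 < lam → lam < 1 →
      ∀ (n : ℕ) (h : Fin n → ℝ → ℝ) (σ : Fin n → Fin n → ℝ), Shifts h σ → ∀ g : BoundedContinuousFunction (EuclideanSpace ℝ (Fin n)) ℝ,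
        Tendsto (fun T : ℝ => Pairs h g R lam T / N T) atTop (𝓝 (predicted R lam * ∫ y, g y ∂(normal σ)))) := by
  classical
  have hcc : c = H370.cMTinv := rfl
  have hc2 := H370.cMTinv_lt
  have hc1 := H370.cMTinv_gt_one
  have hPhi1 : ∀ J : Set ℝ, Phi J ≤ 1 := fun J => measureReal_le_one
  have hPhi0 : ∀ J : Set ℝ, 0 ≤ Phi J := fun J => measureReal_nonneg
  refine ⟨zeros_finite, ?_, ?_, ?_⟩
  · intro n h σ hS
    refine ⟨Pool.Agent.Q97.UM.sig_posSemidef Pool.Agent.Q97.UM.b_MZ hS.1 hS.2, fun i => ?_, fun g => ?_⟩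
    · have hLL : Tendsto (fun T : ℝ => Real.log (Real.log T)) atTop atTop := Real.tendsto_log_atTop.comp Real.tendsto_log_atTop
      refine tendsto_nhds_unique (hS.2 i i) (tendsto_const_nhds.congr' ?_)
      filter_upwards [hLL.eventually_gt_atTop 0] with T hT
      rw [sub_self, abs_zero, zero_add, one_div, Real.log_inv, neg_neg, div_self hT.ne']
    · have h1 := ratio (Pool.Agent.Q97.UM.joint_mz h hS.1 hS.2 g)
      refine h1.congr' ?_
      filter_upwards [eventually_ge_atTop (1 : ℝ)] with T hT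
      rw [zeros_eq, H370.finsum_Zf H370.good_zeta hT]
      rfl
  · intro n h σ hS u hu J hJ ε hε
    obtain ⟨h1, h2, d, hd0, hd1, h3⟩ := Pool.Agent.Q97.UM.field_law h hS.1 hS.2 u hu Pool.Agent.Q261.UM.t_ABS Pool.Agent.Q224.UM.t_ABU hJ
      (ε / 4) (by positivity)
    have hY : ∀ T s, Y h σ u T s.im = Pool.Agent.Q97.UM.yF h u (Pool.Agent.Q97.UM.vv σ u) T s := fun T s => Y_eq h σ u T s
    obtain ⟨T₀, hT₀⟩ := eventually_atTop.1 ((((h1.and h2).and h3).and
      (N_asymp (min (ε / 4) (1 / 2)) (by positivity))).and (eventually_ge_atTop (16 : ℝ)))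
    refine ⟨d, T₀, hd0, fun T hT => ?_⟩
    obtain ⟨⟨⟨⟨h1, h2⟩, h3⟩, h4⟩, h5⟩ := hT₀ T hT
    have hA0 := Pool.Agent.Q97.UM.AT_pos (T := T) (by linarith)
    have hp := hPhi1 J
    have hp0 := hPhi0 J
    refine ⟨?_, ?_, ?_⟩
    · rw [Number_eq hY J T (by linarith)]
      exact to_N2 hA0 hε hp0 hp h1 h4
    · rw [distinct_eq hY J T (by linarith), Set.ncard_coe_finset]
      refine to_N hA0 hε ?_ ?_ h2 h4
      · rw [hcc]; exact mul_nonneg (by linarith) hp0
      · rw [hcc]; nlinarith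
    · rw [isolated_eq hY d J T h5 hd1, Set.ncard_coe_finset]
      refine to_N hA0 hε ?_ ?_ h3 h4
      · rw [hcc]; exact mul_nonneg (by linarith) hp0
      · rw [hcc]; nlinarith
  · intro hRH R hR lam h0 h1 n h σ hS g
    obtain ⟨D, hD⟩ := hR.lip
    obtain ⟨M, hM⟩ := hR.dec
    have hT : Pool.Agent.Q97.UM.Tst R D M := ⟨hD, hR.even, hR.supp, hM⟩
    have h2 := ratio (Pool.Agent.Q97.UM.joint_pw hRH hT h0 h1 h hS.1 hS.2 g)
    refine h2.congr' ?_
    filter_upwards [eventually_ge_atTop (1 : ℝ)] with T hT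
    rw [Pairs_eq h g R lam T hT]

end

end Pool.Agent.Results.MP_00e05b_nt.FieldSeenFromZeros
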