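import Pool.Agent.Q97.UM.Base14
import Pool.Agent.Q97.UM.Pcx
import Pool.Agent.Q97.UM.Rh

set_option autoImplicit false

/-!
# MP_00e05b_nt: the local size of zeta at its zeros, and pair correlation

For an ordinate `γ` of a zero let `V(γ)` be the mean value of `log |ζ(1/2 + it)|` over the interval `|t - γ| ≤ 1 / log T`, divided by
`√(½ log log T)`. Without any hypothesis, the values of `V` at the ordinates of ALL the zeros with ordinate in `(T, 2T]` have asymptotically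
the standard normal law. On the Riemann hypothesis, Montgomery's theorem holds with `V(γ)` restricted to an arbitrary interval: the pair
correlation, in Montgomery's range, does not depend on the size of zeta near the zero.
-/

namespace Pool.Agent.Results.MP_00e05b_nt.LocalSizeAndPairs

open Filter Topology MeasureTheory Complex ProbabilityTheory

noncomputable section

/-- the Riemann hypothesis -/
def RH : Prop := ∀ s : ℂ, riemannZeta s = 0 → 0 < s.re → s.re < 1 → s.re = 1 / 2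

/-- the nontrivial zeros of zeta with ordinate in `(T, 2T]` -/
def zeros (T : ℝ) : Set ℂ := {s : ℂ | riemannZeta s = 0 ∧ 0 < s.re ∧ s.re < 1 ∧ T < s.im ∧ s.im ≤ 2 * T}

/-- multiplicity of a zero -/
def m (s : ℂ) : ℝ := (analyticOrderNatAt riemannZeta s : ℝ)

/-- the number of these zeros, with multiplicity -/
def N (T : ℝ) : ℝ := ∑ᶠ s ∈ zeros T, m s

/-- the mean value of `log |ζ(1/2 + it)|` over `|t - γ| ≤ 1 / log T`, divided by `√(½ log log T)` -/
def V (T γ : ℝ) : ℝ :=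
  (Real.log T / 2 * ∫ t in (γ - 1 / Real.log T)..(γ + 1 / Real.log T), Real.log ‖riemannZeta (1 / 2 + t * I)‖) /
    Real.sqrt (Real.log (Real.log T) / 2)

/-- the standard normal law -/
def Phi (J : Set ℝ) : ℝ := (gaussianReal 0 1).real J

/-- the number of zeros with `V(γ) ∈ J`, with multiplicity -/
def Number (J : Set ℝ) (T : ℝ) : ℝ := ∑ᶠ s ∈ zeros T, Set.indicator {s : ℂ | V T s.im ∈ J} m s

/-- the test function with transform `R` -/
def f (R : ℝ → ℝ) (x : ℝ) : ℝ := ∫ α in (-1 : ℝ)..1, R α * Real.cos (α * x)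

/-- admissible transforms: Lipschitz, even, supported in `[-1, 1]`, and `f(x) = O(1 / (1 + x²))` -/
structure Admissible (R : ℝ → ℝ) : Prop where
  lip : ∃ D : ℝ, ∀ x y : ℝ, |R x - R y| ≤ D * |x - y|
  even : ∀ x : ℝ, R (-x) = R x
  supp : ∀ x : ℝ, 1 ≤ |x| → R x = 0
  dec : ∃ M : ℝ, ∀ x : ℝ, |f R x| ≤ M / (1 + x ^ 2)

/-- the sum over the pairs of zeros `ρ`, `ρ'` (ordinates `γ`, `γ'`) with `V(γ) ∈ J` -/
def Pairs (R : ℝ → ℝ) (lam : ℝ) (J : Set ℝ) (T : ℝ) : ℝ :=
  ∑ᶠ s ∈ zeros T, Set.indicator {s : ℂ | V T s.im ∈ J} (fun s => m s * ∑ᶠ s' ∈ zeros T, m s' * f R (lam * Real.log T * (s.im - s'.im))) s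

/-- the value predicted by the pair correlation conjecture: the integral of the form factor `δ₀(α) + min(|α|, 1)` against the transform
`R(α / lam) / lam` of `f(lam x)`, `lam < 1` -/
def predicted (R : ℝ → ℝ) (lam : ℝ) : ℝ := R 0 / lam + 2 * lam * ∫ α in (0 : ℝ)..1, α * R α

lemma zeros_eq (T : ℝ) : zeros T = H370.zset riemannZeta T (2 * T) := by
  ext s
  simp only [zeros, H370.zset, Set.mem_ofPred_eq]
  tauto

theorem zeros_finite (T : ℝ) (h : 0 < T) : (zeros T).Finite := by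
  rw [zeros_eq]
  exact H370.zset_finite' H370.good_zeta T (2 * T) h

theorem N_eq (T : ℝ) (h : 1 ≤ T) : N T = ∑ s ∈ H370.Zf riemannZeta T (2 * T), (Pool.Agent.Q97.UM.mz s : ℝ) := by
  unfold N
  rw [zeros_eq, H370.finsum_Zf H370.good_zeta h]
  rfl

lemma V_eq (T : ℝ) (s : ℂ) : V T s.im = Pool.Agent.Q97.UM.VN T s := rfl

open Classical in
theorem Number_eq (J : Set ℝ) (T : ℝ) (h : 1 ≤ T) : Number J T =
    ∑ s ∈ (H370.Zf riemannZeta T (2 * T)).filter (fun s => Pool.Agent.Q97.UM.VN T s ∈ J), (Pool.Agent.Q97.UM.mz s : ℝ) := by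
  unfold Number
  rw [zeros_eq, H370.finsum_Zf H370.good_zeta h, Finset.sum_filter]
  refine Finset.sum_congr rfl fun s _ => ?_
  rw [Set.indicator_apply]
  rfl

open Classical in
theorem Pairs_eq (R : ℝ → ℝ) (lam : ℝ) (J : Set ℝ) (T : ℝ) (h : 1 ≤ T) : Pairs R lam J T =
    ∑ s ∈ (H370.Zf riemannZeta T (2 * T)).filter (fun s => Pool.Agent.Q97.UM.VN T s ∈ J), Pool.Agent.Q97.UM.pw R lam T s := by
  unfold Pairs
  rw [zeros_eq, H370.finsum_Zf H370.good_zeta h, Finset.sum_filter]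
  refine Finset.sum_congr rfl fun s _ => ?_
  rw [Set.indicator_apply]
  have e1 : m s * ∑ᶠ s' ∈ H370.zset riemannZeta T (2 * T), m s' * f R (lam * Real.log T * (s.im - s'.im)) =
      Pool.Agent.Q97.UM.pw R lam T s := by
    rw [H370.finsum_Zf H370.good_zeta h]
    rfl
  rw [e1]
  rfl

/-- the number of zeros, `(log T / 2π) T` -/
theorem N_asymp (ε : ℝ) (hε : 0 < ε) : ∀ᶠ T : ℝ in atTop, |N T - Pool.Agent.Q97.UM.AT T| ≤ ε * Pool.Agent.Q97.UM.AT T := by
  obtain ⟨δ₁, h1, h2⟩ := Pool.Agent.Q97.UM.b_LAWA 1 ε hε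
  filter_upwards [h2 δ₁ h1 le_rfl, eventually_ge_atTop 1] with T h3 hT
  rw [N_eq T hT]
  simp only [Polynomial.eval_one, mul_one, integral_const, smul_eq_mul, probReal_univ, one_mul] at h3
  exact h3

/-- passing from `AT T` to `N T` -/
theorem to_N {A n S c ε : ℝ} (hA : 0 < A) (hε : 0 < ε) (h1 : |S - c * A| ≤ ε / 4 * A)
    (h2 : |n - A| ≤ min (ε / (4 * (|c| + 1))) (1 / 2) * A) : |S - c * n| ≤ ε * n := by
  set e := min (ε / (4 * (|c| + 1))) (1 / 2) with he
  have he1 : e ≤ 1 / 2 := min_le_right _ _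
  have hc := abs_nonneg c
  have he2 : |c| * e ≤ ε / 4 := by
    have h3 : e ≤ ε / (4 * (|c| + 1)) := min_le_left _ _
    calc |c| * e ≤ |c| * (ε / (4 * (|c| + 1))) := by gcongr
      _ ≤ ε / 4 := by
        rw [mul_div_assoc', div_le_div_iff₀ (by positivity) (by norm_num)]
        nlinarith
  have h3 : A ≤ 2 * n := by
    have := (abs_le.1 h2).1
    nlinarith
  calc |S - c * n| = |(S - c * A) + c * (A - n)| := by ring_nf
    _ ≤ |S - c * A| + |c * (A - n)| := abs_add_le _ _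
    _ ≤ ε / 4 * A + |c| * (e * A) := by
        apply add_le_add h1
        rw [abs_mul, abs_sub_comm A n]
        exact mul_le_mul_of_nonneg_left h2 hc
    _ ≤ ε / 4 * A + ε / 4 * A := by
        have : |c| * (e * A) ≤ ε / 4 * A := by
          calc |c| * (e * A) = (|c| * e) * A := by ring
            _ ≤ ε / 4 * A := mul_le_mul_of_nonneg_right he2 hA.le
        linarith
    _ = ε / 2 * A := by ring
    _ ≤ ε / 2 * (2 * n) := by gcongr
    _ = ε * n := by ring

theorem result :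
    (∀ T : ℝ, 0 < T → (zeros T).Finite) ∧
    (∀ J : Set ℝ, J.OrdConnected → ∀ ε : ℝ, 0 < ε → ∃ T₀ : ℝ, ∀ T : ℝ, T₀ ≤ T →
      |Number J T - Phi J * N T| ≤ ε * N T) ∧
    (RH → ∀ R : ℝ → ℝ, Admissible R → ∀ lam : ℝ, 0 < lam → lam < 1 → ∀ J : Set ℝ, J.OrdConnected → ∀ ε : ℝ, 0 < ε →
      ∃ T₀ : ℝ, ∀ T : ℝ, T₀ ≤ T → |Pairs R lam J T - predicted R lam * Phi J * N T| ≤ ε * N T) := by
  classical
  have hCLA := Pool.Agent.Q97.UM.b_CLA
  refine ⟨zeros_finite, ?_, ?_⟩
  · intro J hJ ε hε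
    obtain ⟨T₀, hT₀⟩ := eventually_atTop.1 (((Pool.Agent.Q97.UM.zero_law Pool.Agent.Q97.UM.b_LAWA hCLA Pool.Agent.Q224.UM.t_ABU hJ
      (ε / 4) (by positivity)).and (N_asymp (min (ε / (4 * (|Phi J| + 1))) (1 / 2)) (by positivity))).and (eventually_ge_atTop 3))
    refine ⟨T₀, fun T hT => ?_⟩
    obtain ⟨⟨h1, h2⟩, h3⟩ := hT₀ T hT
    have hL0 : 0 < Real.log T := Real.log_pos (by linarith)
    have hA0 : 0 < Pool.Agent.Q97.UM.AT T := by unfold Pool.Agent.Q97.UM.AT; positivity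
    rw [Number_eq J T (by linarith)]
    exact to_N hA0 hε h1 h2
  · intro hRH R hR lam h0 h1 J hJ ε hε
    obtain ⟨D, hD⟩ := hR.lip
    obtain ⟨M, hM⟩ := hR.dec
    have hT : Pool.Agent.Q97.UM.Tst R D M := ⟨hD, hR.even, hR.supp, hM⟩
    obtain ⟨T₀, hT₀⟩ := eventually_atTop.1 (((Pool.Agent.Q97.UM.pair_law Pool.Agent.Q97.UM.b_WID hCLA Pool.Agent.Q224.UM.t_ABU hRH hT h0 h1
      hJ (ε / 4) (by positivity)).and (N_asymp (min (ε / (4 * (|predicted R lam * Phi J| + 1))) (1 / 2)) (by positivity))).and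
        (eventually_ge_atTop 3))
    refine ⟨T₀, fun T hT' => ?_⟩
    obtain ⟨⟨h1, h2⟩, h3⟩ := hT₀ T hT'
    have hL0 : 0 < Real.log T := Real.log_pos (by linarith)
    have hA0 : 0 < Pool.Agent.Q97.UM.AT T := by unfold Pool.Agent.Q97.UM.AT; positivity
    rw [Pairs_eq R lam J T (by linarith)]
    exact to_N hA0 hε h1 h2

end

end Pool.Agent.Results.MP_00e05b_nt.LocalSizeAndPairs
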