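import Pool.Agent.Q97.UM.Pf
import Pool.Agent.Q97.UM.Rh

set_option autoImplicit false

/-!
# MP_00e05b_nt: Montgomery's theorem relative to every Dirichlet polynomial

Assume the Riemann hypothesis. For a fixed test function `f` whose Fourier transform is supported in `(-1, 1)` (on the scale on which
Montgomery's theorem holds) and every `ε > 0` there is `θ > 0` such that for all large `T`, all `N ≤ T ^ θ` and ALL complex numbers
`b_1, …, b_N`, the sum of `|B(γ)|² f((γ - γ') log T)` over all pairs of ordinates in `(T, 2T]`, with `B(t) = ∑ b_n n^(-1/2 - it)`, is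
`(log T / 2π) ∫_T^{2T} |B|²` times the value predicted by the pair correlation conjecture, up to `ε`.
-/

namespace Pool.Agent.Results.MP_00e05b_nt.RelativeToDirichletPolynomials

open Filter Topology MeasureTheory Complex

noncomputable section

/-- the Riemann hypothesis -/
def RH : Prop := ∀ s : ℂ, riemannZeta s = 0 → 0 < s.re → s.re < 1 → s.re = 1 / 2

/-- the Dirichlet polynomial with coefficients `b_1, …, b_N` on the critical line -/
def B (N : ℕ) (b : ℕ → ℂ) (t : ℝ) : ℂ := ∑ n ∈ Finset.Icc 1 N, b n * (n : ℂ) ^ (-(1 / 2 + t * I))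

/-- `(log T / 2π) ∫_T^{2T} |B|²` -/
def Mean (T : ℝ) (N : ℕ) (b : ℕ → ℂ) : ℝ := Real.log T / (2 * Real.pi) * ∫ t in T..(2 * T), ‖B N b t‖ ^ 2

/-- the nontrivial zeros of zeta with ordinate in `(T, 2T]` -/
def zeros (T : ℝ) : Set ℂ := {s : ℂ | riemannZeta s = 0 ∧ 0 < s.re ∧ s.re < 1 ∧ T < s.im ∧ s.im ≤ 2 * T}

/-- multiplicity of a zero -/
def m (s : ℂ) : ℝ := (analyticOrderNatAt riemannZeta s : ℝ)

/-- the test function with transform `R` -/
def f (R : ℝ → ℝ) (x : ℝ) : ℝ := ∫ α in (-1 : ℝ)..1, R α * Real.cos (α * x)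

/-- admissible transforms: Lipschitz, even, supported in `[-1, 1]`, and `f(x) = O(1 / (1 + x²))` -/
structure Admissible (R : ℝ → ℝ) : Prop where
  lip : ∃ D : ℝ, ∀ x y : ℝ, |R x - R y| ≤ D * |x - y|
  even : ∀ x : ℝ, R (-x) = R x
  supp : ∀ x : ℝ, 1 ≤ |x| → R x = 0
  dec : ∃ M : ℝ, ∀ x : ℝ, |f R x| ≤ M / (1 + x ^ 2)

/-- the sum over the pairs of zeros, weighted by `|B|²` -/
def Pairs (R : ℝ → ℝ) (lam T : ℝ) (N : ℕ) (b : ℕ → ℂ) : ℝ :=
  ∑ᶠ s ∈ zeros T, ∑ᶠ s' ∈ zeros T, m s * m s' * ‖B N b s.im‖ ^ 2 * f R (lam * Real.log T * (s.im - s'.im))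

/-- the value predicted by the pair correlation conjecture: the integral of the form factor `δ₀(α) + min(|α|, 1)` against the transform
`R(α / lam) / lam` of `f(lam x)`, `lam < 1` -/
def predicted (R : ℝ → ℝ) (lam : ℝ) : ℝ := R 0 / lam + 2 * lam * ∫ α in (0 : ℝ)..1, α * R α

lemma zeros_eq (T : ℝ) : zeros T = H370.zset riemannZeta T (2 * T) := by
  ext s
  simp only [zeros, H370.zset, Set.mem_ofPred_eq]
  tauto

theorem zeros_finite (T : ℝ) (h : 0 < T) : (zeros T).Finite := by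
  rw [zeros_eq]
  exact H370.zset_finite' H370.good_zeta T (2 * T) h

lemma pairs_eq (R : ℝ → ℝ) (lam T : ℝ) (h : 1 ≤ T) (N : ℕ) (b : ℕ → ℂ) :
    Pairs R lam T N b = Pool.Agent.Q97.UM.PSf R lam T N b := by
  unfold Pairs
  rw [zeros_eq, H370.finsum_Zf H370.good_zeta h]
  refine Finset.sum_congr rfl fun s _ => ?_
  rw [H370.finsum_Zf H370.good_zeta h]
  rfl

/-- **Montgomery's theorem relative to every Dirichlet polynomial** -/
theorem result :
    (∀ T : ℝ, 0 < T → (zeros T).Finite) ∧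
    (RH → ∀ R : ℝ → ℝ, Admissible R → ∀ lam : ℝ, 0 < lam → lam < 1 → ∀ ε : ℝ, 0 < ε → ∃ θ T₀ : ℝ, 0 < θ ∧
      ∀ T : ℝ, T₀ ≤ T → ∀ N : ℕ, (N : ℝ) ≤ T ^ θ → ∀ b : ℕ → ℂ,
        |Pairs R lam T N b - predicted R lam * Mean T N b| ≤ ε * Mean T N b) := by
  refine ⟨zeros_finite, ?_⟩
  intro hRH R hR lam hlam0 hlam1 ε hε
  obtain ⟨D, hD⟩ := hR.lip
  obtain ⟨M, hM⟩ := hR.dec
  have hT : Pool.Agent.Q97.UM.Tst R D M := ⟨hD, hR.even, hR.supp, hM⟩
  set κ := predicted R lam with hκ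
  have hpi := Real.pi_pos
  have hpi4 := Real.pi_le_four
  set e : ℝ := min (ε / (32 * (|κ| + 1))) (1 / 2) with he
  have he0 : 0 < e := by positivity
  have he1 : e ≤ 1 / 2 := min_le_right _ _
  have he2 : e * (|κ| + 1) ≤ ε / 32 := by
    have h1 : e ≤ ε / (32 * (|κ| + 1)) := min_le_left _ _
    calc e * (|κ| + 1) ≤ ε / (32 * (|κ| + 1)) * (|κ| + 1) := by gcongr
      _ = ε / 32 := by field_simp
  obtain ⟨θ, hθ0, hθ1, h⟩ := Pool.Agent.Q97.UM.SPCF hRH R D M lam e hT hlam0 hlam1 he0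
  have h2 := Pool.Agent.Q97.UM.mv_rel e he0
  obtain ⟨T₀, hT₀⟩ := eventually_atTop.1 ((h.and h2).and (eventually_ge_atTop 3))
  refine ⟨θ, T₀, hθ0, ?_⟩
  intro T hT1 N hN b
  obtain ⟨⟨h3, h4⟩, h5⟩ := hT₀ T hT1
  have hT0 : 0 < T := by linarith
  have a3 := h3 N hN b
  have a4 := h4 N (hN.trans (Real.rpow_le_rpow_of_exponent_le (by linarith) hθ1)) b
  rw [pairs_eq R lam T (by linarith) N b]
  have hMean : Mean T N b = Real.log T / (2 * Real.pi) * ∫ t in T..(2 * T), ‖Pool.Agent.Q97.UM.dp N b t‖ ^ 2 := rfl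
  have hkap : Pool.Agent.Q97.UM.kap R lam = κ := rfl
  rw [hkap] at a3
  set P := Pool.Agent.Q97.UM.PSf R lam T N b
  set μ := Mean T N b with hm
  set J := ∫ t in T..(2 * T), ‖Pool.Agent.Q97.UM.dp N b t‖ ^ 2 with hJ
  set X := T * Pool.Agent.Q97.UM.N2 N b with hX
  have hX0 : 0 ≤ X := by
    rw [hX]; unfold Pool.Agent.Q97.UM.N2; positivity
  have hL0 : 0 < Real.log T := Real.log_pos (by linarith)
  set w := Real.log T / (2 * Real.pi) with hw
  have hw0 : 0 < w := by positivity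
  have hlw : Real.log T = w * (2 * Real.pi) := by rw [hw]; field_simp
  rw [hlw] at a3
  rw [abs_le] at a4
  set Y := w * X with hY
  have hY0 : 0 ≤ Y := by positivity
  have b1 : |μ - Y| ≤ e * Y := by
    rw [hMean, hY, ← mul_sub, abs_mul, abs_of_pos hw0]
    calc w * |J - X| ≤ w * (e * X) := by
          apply mul_le_mul_of_nonneg_left _ hw0.le
          rw [abs_le]; exact a4
      _ = e * (w * X) := by ring
  have b2 : |P - κ * Y| ≤ e * 8 * Y := by
    calc |P - κ * Y| = |P - κ * w * X| := by rw [hY]; ring_nf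
      _ ≤ e * (w * (2 * Real.pi)) * X := a3
      _ = e * (2 * Real.pi) * Y := by rw [hY]; ring
      _ ≤ e * 8 * Y := by gcongr; linarith
  have b3 : Y ≤ 2 * μ := by
    rw [abs_le] at b1
    nlinarith [b1.1]
  have hμ0 : 0 ≤ μ := by linarith
  calc |P - κ * μ| = |(P - κ * Y) + κ * (Y - μ)| := by ring_nf
    _ ≤ |P - κ * Y| + |κ * (Y - μ)| := abs_add_le _ _
    _ ≤ e * 8 * Y + |κ| * (e * Y) := by
        apply add_le_add b2
        rw [abs_mul, abs_sub_comm Y μ]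
        exact mul_le_mul_of_nonneg_left b1 (abs_nonneg _)
    _ ≤ 8 * (e * (|κ| + 1)) * Y := by nlinarith [abs_nonneg κ, mul_nonneg he0.le hY0, mul_nonneg (mul_nonneg he0.le hY0) (abs_nonneg κ)]
    _ ≤ 8 * (ε / 32) * Y := by gcongr
    _ ≤ 8 * (ε / 32) * (2 * μ) := by gcongr
    _ ≤ ε * μ := by nlinarith [mul_nonneg hε.le hμ0]

end

end Pool.Agent.Results.MP_00e05b_nt.RelativeToDirichletPolynomials
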